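import Pool.Agent.H30.UI.Stubs

namespace Pool.Agent.H9.UI

open Finset Pool.Agent.H30.UI

theorem upc : S_upc := by
  intro V _ E G k r u hG hkr hrE hu h
  set m := E.card with hm
  -- double counting
  have h1 : ∑ Z ∈ powersetCard (m - r) E, (G.filter (fun A => Disjoint A Z)).card =
      G.card * (m - k).choose (m - r) := by
    have h2 : ∑ Z ∈ powersetCard (m - r) E, (G.filter (fun A => Disjoint A Z)).card =
        ∑ A ∈ G, ((powersetCard (m - r) E).filter (fun Z => Disjoint A Z)).card :=
      Finset.sum_card_bipartiteAbove_eq_sum_card_bipartiteBelow (fun Z A => Disjoint A Z)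
    rw [h2, Finset.sum_const_nat]
    intro A hA
    have h3 : (powersetCard (m - r) E).filter (fun Z => Disjoint A Z) =
        powersetCard (m - r) (E \ A) := by
      ext Z
      rw [mem_filter, mem_powersetCard, mem_powersetCard]
      constructor
      · rintro ⟨⟨hZ, hc⟩, hd⟩
        exact ⟨Finset.subset_sdiff.2 ⟨hZ, hd.symm⟩, hc⟩
      · rintro ⟨hZ, hc⟩
        obtain ⟨hZ1, hZ2⟩ := Finset.subset_sdiff.1 hZ
        exact ⟨⟨hZ1, hc⟩, hZ2.symm⟩
    rw [h3, card_powersetCard, card_sdiff_of_subset (hG A hA).1, (hG A hA).2]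
  have h4 : ∑ Z ∈ powersetCard (m - r) E, (G.filter (fun A => Disjoint A Z)).card ≤
      (u - 1) * m.choose (m - r) + (ZZ E G u r).card * r.choose k := by
    rw [← Finset.sum_filter_add_sum_filter_not (powersetCard (m - r) E)
      (fun Z => u ≤ (G.filter (fun A => Disjoint A Z)).card)]
    rw [add_comm]
    refine Nat.add_le_add ?_ ?_
    · calc ∑ Z ∈ (powersetCard (m - r) E).filter
            (fun Z => ¬ u ≤ (G.filter (fun A => Disjoint A Z)).card),
            (G.filter (fun A => Disjoint A Z)).card
          ≤ ∑ Z ∈ (powersetCard (m - r) E).filter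
            (fun Z => ¬ u ≤ (G.filter (fun A => Disjoint A Z)).card), (u - 1) := by
            refine Finset.sum_le_sum fun Z hZ => ?_
            have := (mem_filter.1 hZ).2
            omega
        _ ≤ ∑ Z ∈ powersetCard (m - r) E, (u - 1) :=
            Finset.sum_le_sum_of_subset (filter_subset _ _)
        _ = (u - 1) * m.choose (m - r) := by
            rw [Finset.sum_const, card_powersetCard, smul_eq_mul, mul_comm]
    · show _ ≤ ((powersetCard (E.card - r) E).filter
        (fun Z => u ≤ (G.filter (fun A => Disjoint A Z)).card)).card * r.choose k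
      rw [← smul_eq_mul, ← Finset.sum_const, ← hm]
      refine Finset.sum_le_sum fun Z hZ => ?_
      have hZ' := mem_powersetCard.1 (mem_filter.1 hZ).1
      have h5 : G.filter (fun A => Disjoint A Z) ⊆ powersetCard k (E \ Z) := by
        intro A hA
        obtain ⟨hA1, hA2⟩ := mem_filter.1 hA
        exact mem_powersetCard.2 ⟨Finset.subset_sdiff.2 ⟨(hG A hA1).1, hA2⟩, (hG A hA1).2⟩
      refine (card_le_card h5).trans ?_
      rw [card_powersetCard, card_sdiff_of_subset hZ'.1, hZ'.2]
      have : E.card - (m - r) = r := by omega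
      rw [this]
  rw [h1] at h4
  have h6 : (m - k).choose (m - r) = (m - k).choose (r - k) := by
    rw [← Nat.choose_symm (by omega : m - r ≤ m - k)]
    congr 1
    omega
  have h7 : m.choose (m - r) = m.choose r := Nat.choose_symm hrE
  have h8 : m.choose r * r.choose k = m.choose k * (m - k).choose (r - k) :=
    Nat.choose_mul hkr
  rw [h6, h7] at h4
  have hpos : 0 < r.choose k := Nat.choose_pos hkr
  refine Nat.le_of_mul_le_mul_right ?_ hpos
  have h9 : 2 * m.choose k * (G.card * (m - k).choose (r - k)) ≤
      2 * m.choose k * ((u - 1) * m.choose r + (ZZ E G u r).card * r.choose k) :=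
    Nat.mul_le_mul_left _ h4
  have h10 : 2 * (u - 1) * m.choose k * m.choose r ≤ G.card * r.choose k * m.choose r :=
    Nat.mul_le_mul_right _ h
  have h11 : 2 * m.choose k * (G.card * (m - k).choose (r - k)) =
      2 * (G.card * m.choose r * r.choose k) := by
    calc 2 * m.choose k * (G.card * (m - k).choose (r - k))
        = 2 * (G.card * (m.choose k * (m - k).choose (r - k))) := by ring
      _ = _ := by rw [← h8]; ring
  nlinarith

theorem shadow : S_kk2 → S_shadow := by
  intro hkk V _ E G S k r s u v hk hvk hu hv hKF hrk hs hcard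
  set m := E.card with hm
  have hZ : ∀ A ∈ ZZ E G u r, A ⊆ E ∧ A.card = m - r := by
    intro A hA
    exact mem_powersetCard.1 (mem_filter.1 hA).1
  have h1 := hkk V E (ZZ E G u r) k (m - r) s hZ (by omega) hs hcard
  set B := (powersetCard k E).filter (fun B => ∃ A ∈ ZZ E G u r, B ⊆ A) with hB
  have h2 : B.card * (k + 1 - v) ≤ (powersetCard (k - 1) E \ S).card * (m + 1 - k) := by
    refine Finset.card_mul_le_card_mul (fun B B' : Finset V => B' ⊆ B) ?_ ?_
    · intro b hb
      obtain ⟨hb1, A, hA, hbA⟩ := mem_filter.1 hb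
      obtain ⟨hbE, hbk⟩ := mem_powersetCard.1 hb1
      have h3 : powersetCard (k - 1) b \ S ⊆
          (powersetCard (k - 1) E \ S).bipartiteAbove (fun B B' : Finset V => B' ⊆ B) b := by
        intro c hc
        obtain ⟨hc1, hc2⟩ := mem_sdiff.1 hc
        obtain ⟨hc3, hc4⟩ := mem_powersetCard.1 hc1
        rw [mem_bipartiteAbove, mem_sdiff, mem_powersetCard]
        exact ⟨⟨⟨hc3.trans hbE, hc4⟩, hc2⟩, hc3⟩
      refine le_trans ?_ (card_le_card h3)
      have h4 : (powersetCard (k - 1) b).card = k := by
        rw [card_powersetCard, hbk]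
        obtain ⟨j, rfl⟩ : ∃ j, k = j + 1 := ⟨k - 1, by omega⟩
        simp
      have h5 : (powersetCard (k - 1) b ∩ S).card ≤ v - 1 := by
        by_contra hlt
        push Not at hlt
        obtain ⟨Q, hQ, hQc⟩ := Finset.exists_subset_card_eq (by omega :
          v ≤ (powersetCard (k - 1) b ∩ S).card)
        have hA2 := (mem_filter.1 hA).2
        obtain ⟨P, hP, hPc⟩ := Finset.exists_subset_card_eq hA2
        obtain ⟨A', hA', B', hB', hnd⟩ := hKF P (hP.trans (filter_subset _ _)) Q
          (hQ.trans inter_subset_right) hPc hQc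
        apply hnd
        have h6 : Disjoint A' A := (mem_filter.1 (hP hA')).2
        have h7 : B' ⊆ b := (mem_powersetCard.1 (mem_inter.1 (hQ hB')).1).1
        exact h6.mono_right (h7.trans hbA)
      have h6 := card_sdiff_add_card_inter (powersetCard (k - 1) b) S
      omega
    · intro c hc
      obtain ⟨hc1, hc2⟩ := mem_sdiff.1 hc
      obtain ⟨hc3, hc4⟩ := mem_powersetCard.1 hc1
      have h3 : B.bipartiteBelow (fun B B' : Finset V => B' ⊆ B) c ⊆
          (E \ c).image (fun e => insert e c) := by
        intro b hb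
        rw [mem_bipartiteBelow] at hb
        obtain ⟨hb1, hb2⟩ := hb
        obtain ⟨hbE, hbk⟩ := mem_powersetCard.1 (mem_filter.1 hb1).1
        have h4 : (b \ c).card = 1 := by
          rw [card_sdiff_of_subset hb2, hbk, hc4]
          omega
        obtain ⟨e, he⟩ := card_eq_one.1 h4
        rw [mem_image]
        have heb : e ∈ b \ c := by rw [he]; exact mem_singleton_self e
        refine ⟨e, mem_sdiff.2 ⟨hbE (mem_sdiff.1 heb).1, (mem_sdiff.1 heb).2⟩, ?_⟩
        rw [insert_eq, ← he, sdiff_union_of_subset hb2]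
      refine (card_le_card h3).trans (card_image_le.trans ?_)
      rw [card_sdiff_of_subset hc3, hc4]
      omega
  calc (k + 1 - v) * s.choose k ≤ (k + 1 - v) * B.card := Nat.mul_le_mul_left _ h1
    _ = B.card * (k + 1 - v) := mul_comm _ _
    _ ≤ _ := h2
    _ = _ := mul_comm _ _

end Pool.Agent.H9.UI
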