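import Pool.Agent.H30.UI.Stubs

namespace Pool.Agent.H9.UI

open Finset Pool.Agent.H30.UI

theorem one : S_one := by
  intro V _ E G S k u v hv hKF U hU hUc hUE
  have hsub : U.biUnion id ⊆ E := by
    intro y hy
    obtain ⟨A, hA, hyA⟩ := mem_biUnion.1 hy
    exact hUE A hA hyA
  have h1 : (powersetCard (k - 1) (E \ U.biUnion id)).card =
      (E.card - (U.biUnion id).card).choose (k - 1) := by
    rw [card_powersetCard, card_sdiff_of_subset hsub]
  rw [← h1, ← card_sdiff_add_card_inter (powersetCard (k - 1) (E \ U.biUnion id)) S]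
  refine Nat.add_le_add ?_ ?_
  · refine card_le_card (sdiff_subset_sdiff ?_ (Subset.refl S))
    exact powersetCard_mono sdiff_subset
  · by_contra hlt
    push Not at hlt
    obtain ⟨Q, hQ, hQc⟩ := Finset.exists_subset_card_eq (by omega :
      v ≤ (powersetCard (k - 1) (E \ U.biUnion id) ∩ S).card)
    obtain ⟨A, hA, B, hB, hnd⟩ := hKF U hU Q (hQ.trans inter_subset_right) hUc hQc
    apply hnd
    have h2 := (mem_powersetCard.1 (mem_inter.1 (hQ hB)).1).1
    have h3 : Disjoint (U.biUnion id) B := (Finset.subset_sdiff.1 h2).2.symm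
    refine h3.mono_left ?_
    intro y hy
    exact mem_biUnion.2 ⟨A, hA, hy⟩

theorem split : S_split := by
  intro V _ _ x F k u v hk hF hKF
  set T := F.filter (fun A => x ∈ A) with hT
  have hinj : Set.InjOn (fun A : Finset V => A.erase x) (T : Set (Finset V)) := by
    intro A hA B hB hAB
    have h1 : x ∈ A := (mem_filter.1 (mem_coe.1 hA)).2
    have h2 : x ∈ B := (mem_filter.1 (mem_coe.1 hB)).2
    have h3 : A.erase x = B.erase x := hAB
    rw [← insert_erase h1, ← insert_erase h2, h3]
  have hScard : (T.image (fun A => A.erase x)).card = T.card := card_image_of_injOn hinj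
  have hSsub : T.image (fun A => A.erase x) ⊆ powersetCard (k - 1) (univ.erase x) := by
    intro B hB
    obtain ⟨A, hA, rfl⟩ := mem_image.1 hB
    obtain ⟨hA1, hA2⟩ := mem_filter.1 hA
    rw [mem_powersetCard]
    refine ⟨erase_subset_erase x (subset_univ A), ?_⟩
    rw [card_erase_of_mem hA2, hF A hA1]
  refine ⟨T.image (fun A => A.erase x), hSsub, ?_, ?_, ?_⟩
  · intro P hP Q hQ hPc hQc
    have hQx : ∀ B ∈ Q, x ∉ B ∧ insert x B ∈ F := by
      intro B hB
      obtain ⟨A, hA, rfl⟩ := mem_image.1 (hQ hB)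
      obtain ⟨hA1, hA2⟩ := mem_filter.1 hA
      refine ⟨notMem_erase x A, ?_⟩
      rw [insert_erase hA2]
      exact hA1
    have hinj2 : Set.InjOn (fun B : Finset V => insert x B) (Q : Set (Finset V)) := by
      intro A hA B hB hAB
      have h1 := (hQx A hA).1
      have h2 := (hQx B hB).1
      have h3 : insert x A = insert x B := hAB
      rw [← erase_insert h1, ← erase_insert h2, h3]
    obtain ⟨A, hA, B', hB', hnd⟩ := hKF P (hP.trans (filter_subset _ _))
      (Q.image (fun B => insert x B)) (by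
        intro C hC
        obtain ⟨B, hB, rfl⟩ := mem_image.1 hC
        exact (hQx B hB).2) hPc (by rw [card_image_of_injOn hinj2, hQc])
    obtain ⟨B, hB, rfl⟩ := mem_image.1 hB'
    refine ⟨A, hA, B, hB, fun hd => hnd ?_⟩
    rw [disjoint_insert_right]
    exact ⟨(mem_filter.1 (hP hA)).2, hd⟩
  · rw [hScard, add_comm]
    exact (card_filter_add_card_filter_not (s := F) (fun A => x ∈ A)).symm
  · rw [add_comm, card_sdiff_add_card_eq_card hSsub, card_powersetCard,
      card_erase_of_mem (mem_univ x), card_univ]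

theorem pairs_le {V : Type} [Fintype V] [DecidableEq V] (k : ℕ) (F : Finset (Finset V))
    (hk : 2 ≤ k) (hF : ∀ A ∈ F, A.card = k) (x y : V) (hxy : x ≠ y) :
    (F.filter (fun A => x ∈ A ∧ y ∈ A)).card ≤ (Fintype.card V - 2).choose (k - 2) := by
  have h1 : (powersetCard (k - 2) ((univ : Finset V) \ {x, y})).card =
      (Fintype.card V - 2).choose (k - 2) := by
    rw [card_powersetCard, card_sdiff_of_subset (subset_univ _), card_univ, card_pair hxy]
  rw [← h1]
  refine card_le_card_of_injOn (fun A => A \ {x, y}) ?_ ?_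
  · intro A hA
    obtain ⟨hA1, hA2, hA3⟩ := mem_filter.1 (mem_coe.1 hA)
    rw [mem_coe, mem_powersetCard]
    refine ⟨sdiff_subset_sdiff (subset_univ _) (Subset.refl _), ?_⟩
    have : ({x, y} : Finset V) ⊆ A := by
      intro z hz
      rcases mem_insert.1 hz with rfl | hz
      · exact hA2
      · rw [mem_singleton.1 hz]; exact hA3
    rw [card_sdiff_of_subset this, card_pair hxy, hF A hA1]
  · intro A hA B hB hAB
    obtain ⟨hA1, hA2, hA3⟩ := mem_filter.1 (mem_coe.1 hA)
    obtain ⟨hB1, hB2, hB3⟩ := mem_filter.1 (mem_coe.1 hB)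
    have hA4 : ({x, y} : Finset V) ⊆ A := by
      intro z hz
      rcases mem_insert.1 hz with rfl | hz
      · exact hA2
      · rw [mem_singleton.1 hz]; exact hA3
    have hB4 : ({x, y} : Finset V) ⊆ B := by
      intro z hz
      rcases mem_insert.1 hz with rfl | hz
      · exact hB2
      · rw [mem_singleton.1 hz]; exact hB3
    have h3 : A \ {x, y} = B \ {x, y} := hAB
    rw [← sdiff_union_of_subset hA4, ← sdiff_union_of_subset hB4, h3]

theorem triv : S_triv := by
  intro V _ _ k F hk hF hint h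
  have hne : F.Nonempty := by
    rw [← card_pos]; omega
  obtain ⟨A₀, hA₀⟩ := hne
  -- degrees
  have h1 : F.card ≤ ∑ x ∈ A₀, (F.filter (fun A => x ∈ A)).card := by
    have h2 : F ⊆ A₀.biUnion (fun x => F.filter (fun A => x ∈ A)) := by
      intro A hA
      obtain ⟨x, hx1, hx2⟩ := Finset.not_disjoint_iff.1 (hint A₀ hA₀ A hA)
      exact mem_biUnion.2 ⟨x, hx1, mem_filter.2 ⟨hA, hx2⟩⟩
    exact (card_le_card h2).trans card_biUnion_le
  obtain ⟨x, hx, hdeg⟩ : ∃ x ∈ A₀, k * (Fintype.card V - 2).choose (k - 2) <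
      (F.filter (fun A => x ∈ A)).card := by
    by_contra hcon
    push Not at hcon
    have h3 := Finset.sum_le_card_nsmul A₀ _ _ hcon
    rw [hF A₀ hA₀, smul_eq_mul] at h3
    have h4 : k * (k * (Fintype.card V - 2).choose (k - 2)) =
        k ^ 2 * (Fintype.card V - 2).choose (k - 2) := by ring
    omega
  refine ⟨x, fun B hB => ?_⟩
  by_contra hxB
  have h5 : F.filter (fun A => x ∈ A) ⊆
      B.biUnion (fun y => F.filter (fun A => x ∈ A ∧ y ∈ A)) := by
    intro A hA
    obtain ⟨hA1, hA2⟩ := mem_filter.1 hA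
    obtain ⟨y, hy1, hy2⟩ := Finset.not_disjoint_iff.1 (hint B hB A hA1)
    exact mem_biUnion.2 ⟨y, hy1, mem_filter.2 ⟨hA1, hA2, hy2⟩⟩
  have h6 : (F.filter (fun A => x ∈ A)).card ≤
      ∑ y ∈ B, (F.filter (fun A => x ∈ A ∧ y ∈ A)).card :=
    (card_le_card h5).trans card_biUnion_le
  have h7 : ∑ y ∈ B, (F.filter (fun A => x ∈ A ∧ y ∈ A)).card ≤
      B.card * (Fintype.card V - 2).choose (k - 2) := by
    rw [← smul_eq_mul]
    refine Finset.sum_le_card_nsmul B _ _ fun y hy => pairs_le k F hk hF x y ?_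
    rintro rfl
    exact hxB hy
  rw [hF B hB] at h7
  omega

end Pool.Agent.H9.UI
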