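import Pool.Agent.H30.UI.Stubs

namespace Pool.Agent.H9.UI

open Finset Pool.Agent.H30.UI

theorem con2 : S_con2 := by
  intro V _ E k u hk h2k hE hu
  have hkE : k ≤ E.card := by omega
  have key : ∀ t : ℕ, ∃ G ⊆ powersetCard k E, G.card ≤ t ∧
      min (t * k) E.card ≤ (G.biUnion id).card := by
    intro t
    induction t with
    | zero => exact ⟨∅, empty_subset _, by simp, by simp⟩
    | succ t ih =>
      obtain ⟨G, hG, hGt, hGc⟩ := ih
      have hWE : G.biUnion id ⊆ E := by
        intro y hy
        obtain ⟨A, hA, hyA⟩ := mem_biUnion.1 hy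
        exact (mem_powersetCard.1 (hG hA)).1 hyA
      have hins : ∀ A : Finset V, (insert A G).biUnion id = A ∪ G.biUnion id := by
        intro A
        rw [biUnion_insert]
        rfl
      rcases le_or_gt k (E \ G.biUnion id).card with h | h
      · obtain ⟨A, hA, hAc⟩ := Finset.exists_subset_card_eq h
        obtain ⟨hAE, hAd⟩ := Finset.subset_sdiff.1 hA
        refine ⟨insert A G, ?_, (card_insert_le _ _).trans (by omega), ?_⟩
        · intro B hB
          rcases mem_insert.1 hB with rfl | hB
          · exact mem_powersetCard.2 ⟨hAE, hAc⟩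
          · exact hG hB
        · rw [hins, card_union_of_disjoint hAd, hAc]
          have h3 : (t + 1) * k = t * k + k := by ring
          rw [h3]
          omega
      · obtain ⟨A, hA1, hA2, hAc⟩ := Finset.exists_subsuperset_card_eq
          (sdiff_subset : E \ G.biUnion id ⊆ E) h.le hkE
        refine ⟨insert A G, ?_, (card_insert_le _ _).trans (by omega), ?_⟩
        · intro B hB
          rcases mem_insert.1 hB with rfl | hB
          · exact mem_powersetCard.2 ⟨hA2, hAc⟩
          · exact hG hB
        · rw [hins]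
          have h3 : E ⊆ A ∪ G.biUnion id := by
            intro y hy
            rw [mem_union]
            by_cases hyW : y ∈ G.biUnion id
            · exact Or.inr hyW
            · exact Or.inl (hA1 (mem_sdiff.2 ⟨hy, hyW⟩))
          exact (min_le_right _ _).trans (card_le_card h3)
  obtain ⟨G0, hG0, hG0u, hG0c⟩ := key u
  obtain ⟨G, hG1, hG2, hG3⟩ := Finset.exists_subsuperset_card_eq hG0 hG0u
    (by rw [card_powersetCard]; exact hu)
  refine ⟨G, hG2, hG3, ?_⟩
  have h4 : (G0.biUnion id).card ≤ (G.biUnion id).card :=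
    card_le_card (biUnion_subset_biUnion_of_subset_left _ hG1)
  have h5 : (u + 1) * k = u * k + k := by ring
  rw [h5] at hE
  omega

theorem le_choose_aux : ∀ a b : ℕ, 1 ≤ b → b + 1 ≤ a → a ≤ a.choose b
  | 0, b, _, h => by omega
  | a + 1, b, hb, h => by
      obtain ⟨c, rfl⟩ : ∃ c, b = c + 1 := ⟨b - 1, by omega⟩
      rw [Nat.choose_succ_succ']
      have h1 : 1 ≤ a.choose c := Nat.choose_pos (by omega)
      rcases eq_or_lt_of_le h with h2 | h2
      · have : a = c + 1 := by omega
        subst this
        rw [Nat.choose_self, Nat.choose_succ_self_right]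
      · have := le_choose_aux a (c + 1) hb (by omega)
        omega

theorem A4 : S_plus → S_one → S_split → S_triv → S_A4 := by
  intro hplus hone hsplit htriv u v K hu huv
  set B := v * 4 ^ (K + 1) with hB
  refine ⟨2 + K * (K ^ 2 + B + 1) + (u + 2) * K + v + B, ?_⟩
  intro V _ _ k hk hkK hN F hF hKF
  by_contra hcon
  push Not at hcon
  set n := Fintype.card V with hn
  have h4 : 4 ^ (k + 1) ≤ 4 ^ (K + 1) := Nat.pow_le_pow_right (by norm_num) (by omega)
  have hb : (v - 1) * 4 ^ (k + 1) ≤ B := Nat.mul_le_mul (by omega) h4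
  set b := (v - 1) * 4 ^ (k + 1) with hbdef
  have hkk : k ^ 2 ≤ K ^ 2 := Nat.pow_le_pow_left hkK 2
  have hA : (k - 1) * (k ^ 2 + b + 1) ≤ K * (K ^ 2 + B + 1) :=
    Nat.mul_le_mul (by omega) (by omega)
  have huK : (u + 2) * k ≤ (u + 2) * K := Nat.mul_le_mul_left _ hkK
  have huk : (u + 2) * k = u * k + 2 * k := by ring
  have h2k : 2 * k ≤ n := by omega
  obtain ⟨F', hF'F, hF'int, hF'c⟩ := hplus V k u v (by omega) h2k hu huv F hF hKF
  -- the size of `F'`
  have hlarge : k ^ 2 * (n - 2).choose (k - 2) < F'.card := by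
    have h5 := Nat.add_one_mul_choose_eq (n - 2) (k - 2)
    have e1 : n - 2 + 1 = n - 1 := by omega
    have e2 : k - 2 + 1 = k - 1 := by omega
    rw [e1, e2] at h5
    have hcpos : 1 ≤ (n - 2).choose (k - 2) := Nat.choose_pos (by omega)
    have h6 : (k ^ 2 + b + 1) * (n - 2).choose (k - 2) ≤ (n - 1).choose (k - 1) := by
      have hk1 : 0 < k - 1 := by omega
      refine Nat.le_of_mul_le_mul_right ?_ hk1
      rw [← h5]
      calc (k ^ 2 + b + 1) * (n - 2).choose (k - 2) * (k - 1)
          = ((k - 1) * (k ^ 2 + b + 1)) * (n - 2).choose (k - 2) := by ring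
        _ ≤ (n - 1) * (n - 2).choose (k - 2) := Nat.mul_le_mul_right _ (by omega)
    have h7 : (k ^ 2 + b + 1) * (n - 2).choose (k - 2) =
        k ^ 2 * (n - 2).choose (k - 2) + (b + 1) * (n - 2).choose (k - 2) := by ring
    have h8 : (b + 1) * 1 ≤ (b + 1) * (n - 2).choose (k - 2) := Nat.mul_le_mul_left _ hcpos
    have h9 := card_sdiff_add_card_eq_card hF'F
    omega
  obtain ⟨x, hx⟩ := htriv V k F' hk (fun A hA => hF A (hF'F hA)) hF'int hlarge
  obtain ⟨S, hS, hKF', hc1, hc2⟩ := hsplit V x F k u v (by omega) hF hKF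
  rw [← hn] at hc2
  set G := F.filter (fun A => x ∉ A) with hG
  set M := powersetCard (k - 1) (univ.erase x) \ S with hM
  have hGc : G.card ≤ b := by
    refine (card_le_card ?_).trans hF'c
    intro A hA
    obtain ⟨hA1, hA2⟩ := mem_filter.1 hA
    exact mem_sdiff.2 ⟨hA1, fun h => hA2 (hx A h)⟩
  rcases lt_or_ge G.card u with hlt | hge
  · omega
  · obtain ⟨U, hU, hUc⟩ := Finset.exists_subset_card_eq hge
    have h10 := hone V (univ.erase x) G S k u v (by omega) hKF' U hU hUc (by
      intro A hA
      have := (mem_filter.1 (hU hA)).2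
      intro y hy
      rw [mem_erase]
      refine ⟨?_, mem_univ y⟩
      rintro rfl
      exact this hy)
    have h11 : (univ.erase x : Finset V).card = n - 1 := by
      rw [card_erase_of_mem (mem_univ x), card_univ]
    rw [h11, ← hM] at h10
    have h12 : (U.biUnion id).card ≤ u * k := by
      rw [← hUc]
      refine card_biUnion_le_card_mul _ _ _ fun A hA => ?_
      exact (hF A (mem_filter.1 (hU hA)).1).le
    have h13 : n - 1 - u * k ≤ (n - 1 - (U.biUnion id).card).choose (k - 1) := by
      refine le_trans ?_ (Nat.choose_le_choose (k - 1)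
        (by omega : n - 1 - u * k ≤ n - 1 - (U.biUnion id).card))
      exact le_choose_aux _ _ (by omega) (by omega)
    omega

end Pool.Agent.H9.UI
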