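import Pool.Agent.H30.UI.Stubs

namespace Pool.Agent.H9.UI

open Finset Pool.Agent.H30.UI Pool.Agent.H30.Diam

theorem EL_congr {α : Type} [DecidableEq α] (q : ℝ) : ∀ (l : List α) (f g : Finset α → ℝ),
    (∀ W, W ⊆ l.toFinset → f W = g W) → EL q l f = EL q l g
  | [], f, g, h => h ∅ (by simp)
  | a :: l, f, g, h => by
      simp only [EL]
      rw [EL_congr q l f g (fun W hW => h W (by
        intro x hx; have := hW hx
        simp only [List.toFinset_cons, Finset.mem_insert]; exact Or.inr this))]
      rw [EL_congr q l (fun W => f (insert a W)) (fun W => g (insert a W)) (fun W hW =>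
        h (insert a W) (by
          intro x hx; simp only [List.toFinset_cons, Finset.mem_insert] at hx ⊢
          rcases hx with hx | hx
          · exact Or.inl hx
          · exact Or.inr (hW hx)))]

theorem russo : S_russo := by
  intro α _ l
  induction l with
  | nil =>
    intro _ f p
    simp only [List.toFinset_nil, Finset.sum_empty]
    exact hasDerivAt_const p (f ∅)
  | cons a l ih =>
    intro hl f p
    have hal : a ∉ l := (List.nodup_cons.1 hl).1
    have hl' := (List.nodup_cons.1 hl).2
    have h1 := ih hl' f p
    have h2 := ih hl' (fun W => f (insert a W)) p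
    have h3 : HasDerivAt (fun x => (1 - x) * EL x l f + x * EL x l (fun W => f (insert a W)))
        (((-1) * EL p l f + (1 - p) * ∑ i ∈ l.toFinset,
            EL p l (fun W => f (insert i W) - f (W.erase i))) +
          (1 * EL p l (fun W => f (insert a W)) + p * ∑ i ∈ l.toFinset,
            EL p l (fun W => f (insert a (insert i W)) - f (insert a (W.erase i))))) p := by
      refine HasDerivAt.add (HasDerivAt.mul ?_ h1) (HasDerivAt.mul (hasDerivAt_id p) h2)
      simpa using (hasDerivAt_id p).const_sub 1
    have h4 : (fun x => EL x (a :: l) f) =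
        fun x => (1 - x) * EL x l f + x * EL x l (fun W => f (insert a W)) := rfl
    rw [h4]
    refine h3.congr_deriv ?_
    have hal' : a ∉ l.toFinset := fun h => hal (List.mem_toFinset.1 h)
    rw [List.toFinset_cons, Finset.sum_insert hal']
    have hna : ∀ W : Finset α, W ⊆ l.toFinset → a ∉ W := fun W hW ha => hal' (hW ha)
    have h5 : EL p (a :: l) (fun W => f (insert a W) - f (W.erase a)) =
        EL p l (fun W => f (insert a W)) - EL p l f := by
      simp only [EL]
      have e1 : EL p l (fun W => f (insert a W) - f (W.erase a)) =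
          EL p l (fun W => f (insert a W) - f W) := EL_congr p l _ _ (fun W hW => by
        simp only [Finset.erase_eq_of_notMem (hna W hW)])
      have e2 : EL p l (fun W => f (insert a (insert a W)) - f ((insert a W).erase a)) =
          EL p l (fun W => f (insert a W) - f W) := EL_congr p l _ _ (fun W hW => by
        simp only [Finset.insert_idem, Finset.erase_insert (hna W hW)])
      rw [e1, e2, EL_sub]
      ring
    have h6 : ∑ i ∈ l.toFinset, EL p (a :: l) (fun W => f (insert i W) - f (W.erase i)) =
        (1 - p) * ∑ i ∈ l.toFinset, EL p l (fun W => f (insert i W) - f (W.erase i)) +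
        p * ∑ i ∈ l.toFinset,
            EL p l (fun W => f (insert a (insert i W)) - f (insert a (W.erase i))) := by
      rw [Finset.mul_sum, Finset.mul_sum, ← Finset.sum_add_distrib]
      refine Finset.sum_congr rfl fun i hi => ?_
      have hai : a ≠ i := by
        rintro rfl
        exact hal' hi
      simp only [EL]
      have e2 : EL p l (fun W => f (insert i (insert a W)) - f ((insert a W).erase i)) =
          EL p l (fun W => f (insert a (insert i W)) - f (insert a (W.erase i))) :=
        EL_congr p l _ _ (fun W hW => by
          rw [Finset.insert_comm, Finset.erase_insert_of_ne hai])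
      rw [e2]
    rw [h5, h6]
    ring

theorem prod_list {V : Type} [DecidableEq V] (p q : ℝ) (hp0 : 0 ≤ p) (hp1 : p ≤ 1) (hq0 : 0 ≤ q)
    (hq1 : q ≤ 1) : ∀ (l : List V) (P : Finset V → Prop), Up P →
    EL (p * q) l (fun W => ind (P W)) ≤ EL p l (fun W => ind (P W)) * EL q l (fun W => ind (P W))
  | [], P, _ => by
      simp only [EL]
      have := ind_sq (P ∅)
      nlinarith
  | a :: l, P, hP => by
      have hP' : Up (fun W => P (insert a W)) := fun A B hAB h =>
        hP _ _ (Finset.insert_subset_insert a hAB) h
      have h1 := prod_list p q hp0 hp1 hq0 hq1 l P hP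
      have h2 := prod_list p q hp0 hp1 hq0 hq1 l (fun W => P (insert a W)) hP'
      have h3 : EL p l (fun W => ind (P W)) ≤ EL p l (fun W => ind (P (insert a W))) :=
        EL_mono hp0 hp1 l _ _ (fun W _ => ind_mono (hP _ _ (Finset.subset_insert a W)))
      have h4 : EL q l (fun W => ind (P W)) ≤ EL q l (fun W => ind (P (insert a W))) :=
        EL_mono hq0 hq1 l _ _ (fun W _ => ind_mono (hP _ _ (Finset.subset_insert a W)))
      have h5 : 0 ≤ EL p l (fun W => ind (P W)) := EL_nonneg hp0 hp1 l _ (fun W => ind_nonneg _)
      have h6 : 0 ≤ EL q l (fun W => ind (P W)) := EL_nonneg hq0 hq1 l _ (fun W => ind_nonneg _)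
      simp only [EL]
      set A := EL p l (fun W => ind (P W))
      set A' := EL p l (fun W => ind (P (insert a W)))
      set B := EL q l (fun W => ind (P W))
      set B' := EL q l (fun W => ind (P (insert a W)))
      have hpq : p * q ≤ 1 := mul_le_one₀ hp1 hq0 hq1
      have h7 := mul_le_mul_of_nonneg_left h1 (by linarith : (0 : ℝ) ≤ 1 - p * q)
      have h8 := mul_le_mul_of_nonneg_left h2 (mul_nonneg hp0 hq0)
      have h9 : 0 ≤ (1 - p) * q * (A * (B' - B)) :=
        mul_nonneg (mul_nonneg (by linarith) hq0) (mul_nonneg h5 (by linarith))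
      have h10 : 0 ≤ p * (1 - q) * (B * (A' - A)) :=
        mul_nonneg (mul_nonneg hp0 (by linarith)) (mul_nonneg h6 (by linarith))
      have h11 : ((1 - p) * A + p * A') * ((1 - q) * B + q * B') =
          (1 - p * q) * (A * B) + p * q * (A' * B') + (1 - p) * q * (A * (B' - B)) +
            p * (1 - q) * (B * (A' - A)) := by ring
      rw [h11]
      linarith

theorem prod : S_prod := by
  intro V _ _ p q hp0 hp1 hq0 hq1 P hP
  exact prod_list p q hp0 hp1 hq0 hq1 _ P hP

theorem var_list {V : Type} [DecidableEq V] (p c : ℝ) : ∀ (l : List V), l.Nodup →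
    ∀ c : ℝ, EL p l (fun W => ((W.card : ℝ) - c) ^ 2) =
      l.length * (p * (1 - p)) + (l.length * p - c) ^ 2
  | [], _, c => by simp [EL]
  | a :: l, hl, c => by
      have hal : a ∉ l := (List.nodup_cons.1 hl).1
      have hl' := (List.nodup_cons.1 hl).2
      simp only [EL]
      rw [var_list p c l hl' c]
      have e : EL p l (fun W => (((insert a W).card : ℝ) - c) ^ 2) =
          EL p l (fun W => ((W.card : ℝ) - (c - 1)) ^ 2) := EL_congr p l _ _ (fun W hW => by
        have : a ∉ W := fun h => hal (List.mem_toFinset.1 (hW h))
        rw [Finset.card_insert_of_notMem this]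
        push_cast
        ring)
      rw [e, var_list p c l hl' (c - 1)]
      rw [List.length_cons]
      push_cast
      ring

theorem cheb : S_cheb := by
  intro V _ _ p hp0 hp1 k hk
  have hpos : 0 < p * Fintype.card V - k := by linarith
  rw [le_div_iff₀ (by positivity)]
  have h1 := var_list p 0 (Finset.univ : Finset V).toList (Finset.nodup_toList _)
    (p * Fintype.card V)
  have h2 : ((Finset.univ : Finset V).toList.length : ℝ) = Fintype.card V := by
    rw [Finset.length_toList, Finset.card_univ]
  rw [h2] at h1
  have h3 : Ev p (fun W : Finset V => (p * Fintype.card V - k) ^ 2 * ind (W.card < k)) ≤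
      Ev p (fun W : Finset V => ((W.card : ℝ) - p * Fintype.card V) ^ 2) := by
    refine Ev_mono hp0 hp1 fun W => ?_
    by_cases hW : W.card < k
    · rw [ind_true hW, mul_one]
      have : (W.card : ℝ) ≤ k := by exact_mod_cast hW.le
      have h4 : (p * Fintype.card V - k) ≤ p * Fintype.card V - W.card := by linarith
      nlinarith
    · rw [ind_false hW, mul_zero]
      positivity
  rw [Ev_mul] at h3
  have h5 : Ev p (fun W : Finset V => ((W.card : ℝ) - p * Fintype.card V) ^ 2) =
      (Fintype.card V : ℝ) * (p * (1 - p)) := by
    have : (Fintype.card V : ℝ) * p - p * Fintype.card V = 0 := by ring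
    rw [this] at h1
    show EL p _ _ = _
    rw [h1]; ring
  rw [h5] at h3
  have h6 : (Fintype.card V : ℝ) * (p * (1 - p)) ≤ p * Fintype.card V := by
    have : (0 : ℝ) ≤ (Fintype.card V : ℝ) * (p * p) := by positivity
    nlinarith
  calc Ev p (fun W : Finset V => ind (W.card < k)) * (p * Fintype.card V - k) ^ 2
      = (p * Fintype.card V - k) ^ 2 * Ev p (fun W : Finset V => ind (W.card < k)) := mul_comm _ _
    _ ≤ _ := h3
    _ ≤ _ := h6

end Pool.Agent.H9.UI
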