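import Pool.Agent.H30.UI.Stubs

namespace Pool.Agent.H9.UI

open Finset Pool.Agent.H30.UI

theorem power : S_power := by
  intro u hu x hx
  have hu' : (2 : ℝ) ≤ u := by exact_mod_cast hu
  have hx1 : 1 < x := by linarith
  have hx0 : 0 < x := by linarith
  rcases eq_or_lt_of_le hu with h | h
  · subst h
    push_cast at hx
    have h1 : x * (1 - 1 / x) ^ 2 = (x - 1) ^ 2 / x := by field_simp
    rw [h1, le_div_iff₀ hx0]
    nlinarith
  · have hu3 : (3 : ℝ) ≤ u := by exact_mod_cast h
    have hx2 : 0 < x - 1 := by linarith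
    have h1 : (1 - 1 / x) = (1 + 1 / (x - 1))⁻¹ := by field_simp; ring
    have h2 : (1 + 1 / (x - 1)) ^ u ≤ 3 := by
      have h3 : 1 + 1 / (x - 1) ≤ Real.exp (1 / (x - 1)) := by
        have := Real.add_one_le_exp (1 / (x - 1))
        linarith
      have h4 : (1 + 1 / (x - 1)) ^ u ≤ Real.exp (1 / (x - 1)) ^ u :=
        pow_le_pow_left₀ (by positivity) h3 u
      rw [← Real.exp_nat_mul] at h4
      have h5 : (u : ℝ) * (1 / (x - 1)) ≤ 1 + 1 / 449 := by
        rw [mul_one_div, div_le_iff₀ hx2]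
        nlinarith
      have h6 : Real.exp ((u : ℝ) * (1 / (x - 1))) ≤ Real.exp (1 + 1 / 449) := Real.exp_le_exp.2 h5
      rw [Real.exp_add] at h6
      have h7 := Real.exp_one_lt_d9
      have h8 : Real.exp (1 / 449) ≤ 1 / (1 - 1 / 449) :=
        Real.exp_bound_div_one_sub_of_interval (by norm_num) (by norm_num)
      have h9 : Real.exp 1 * Real.exp (1 / 449) ≤ 3 := by
        calc Real.exp 1 * Real.exp (1 / 449) ≤ 2.7182818286 * (1 / (1 - 1 / 449)) :=
              mul_le_mul h7.le h8 (Real.exp_pos _).le (by norm_num)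
          _ ≤ 3 := by norm_num
      linarith
    rw [h1, inv_pow]
    have h10 : (0 : ℝ) < (1 + 1 / (x - 1)) ^ u := by positivity
    rw [← div_eq_mul_inv, le_div_iff₀ h10]
    nlinarith

theorem n3 : S_n3 := by
  refine ⟨24, fun k z hk hz => ?_⟩
  have key : ∀ k : ℕ, 24 ≤ k → 3 * (5.5 : ℝ) ^ k ≤ ((3 * k).choose k : ℝ) := by
    intro k hk
    induction k, hk using Nat.le_induction with
    | base =>
      have : (3 * (5.5 : ℝ) ^ 24) ≤ ((3 * 24 : ℕ).choose 24 : ℝ) := by
        norm_num [Nat.choose]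
      exact this
    | succ k hk ih =>
      have e1 : (3 * k).choose k * (3 * k + 1) = (3 * k + 1).choose k * (3 * k + 1 - k) :=
        Nat.choose_mul_succ_eq (3 * k) k
      have e2 : (3 * k + 1).choose k * (3 * k + 1 + 1) =
          (3 * k + 1 + 1).choose k * (3 * k + 1 + 1 - k) := Nat.choose_mul_succ_eq (3 * k + 1) k
      have e3 : (3 * k + 1 + 1 + 1) * (3 * k + 1 + 1).choose k =
          (3 * k + 1 + 1 + 1).choose (k + 1) * (k + 1) := Nat.add_one_mul_choose_eq (3 * k + 1 + 1) k
      have f1 : 3 * k + 1 - k = 2 * k + 1 := by omega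
      have f2 : 3 * k + 1 + 1 - k = 2 * k + 2 := by omega
      have f3 : 3 * (k + 1) = 3 * k + 1 + 1 + 1 := by ring
      rw [f1] at e1
      rw [f2] at e2
      rw [f3]
      generalize (3 * k).choose k = c0 at *
      generalize (3 * k + 1).choose k = c1 at *
      generalize (3 * k + 1 + 1).choose k = c2 at *
      generalize (3 * k + 1 + 1 + 1).choose (k + 1) = c3 at *
      have e1' : (c0 : ℝ) * (3 * k + 1) = c1 * (2 * k + 1) := by exact_mod_cast e1
      have e2' : (c1 : ℝ) * (3 * k + 1 + 1) = c2 * (2 * k + 2) := by exact_mod_cast e2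
      have e3' : (3 * (k : ℝ) + 1 + 1 + 1) * c2 = c3 * (k + 1) := by exact_mod_cast e3
      have hk' : (24 : ℝ) ≤ k := by exact_mod_cast hk
      have hc : (c3 : ℝ) = 3 * c2 := by
        have : ((k : ℝ) + 1) ≠ 0 := by positivity
        apply mul_right_cancel₀ this
        linarith
      have h6 : 6 * (c0 : ℝ) ≤ c3 := by
        have h7 : (0 : ℝ) < (2 * k + 1) * (2 * k + 2) := by positivity
        refine le_of_mul_le_mul_right ?_ h7
        have h8 : (c3 : ℝ) * ((2 * k + 1) * (2 * k + 2)) =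
            3 * c0 * ((3 * k + 1) * (3 * k + 2)) := by
          rw [hc]
          calc 3 * (c2 : ℝ) * ((2 * k + 1) * (2 * k + 2))
              = 3 * (2 * k + 1) * (c2 * (2 * k + 2)) := by ring
            _ = 3 * (c1 * (2 * k + 1)) * (3 * k + 1 + 1) := by rw [← e2']; ring
            _ = _ := by rw [← e1']; ring
        rw [h8]
        have h9 : (0 : ℝ) ≤ c0 := Nat.cast_nonneg _
        nlinarith [mul_nonneg h9 (mul_nonneg (by linarith : (0 : ℝ) ≤ (k : ℝ)) (by linarith : (0:ℝ) ≤ (k:ℝ) - 4))]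
      rw [pow_succ]
      nlinarith
  have h1 := key k hk
  have h2 : 3 * (3 * k - 1).choose (k - 1) = (3 * k).choose k := by
    have := Nat.add_one_mul_choose_eq (3 * k - 1) (k - 1)
    have e1 : 3 * k - 1 + 1 = 3 * k := by omega
    have e2 : k - 1 + 1 = k := by omega
    rw [e1, e2] at this
    have hk0 : 0 < k := by omega
    refine Nat.eq_of_mul_eq_mul_right hk0 ?_
    rw [← this]; ring
  have h3 : (3 * k - 1).choose (k - 1) ≤ z.choose (k - 1) :=
    Nat.choose_le_choose _ (by omega)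
  have h4 : (3 : ℝ) * ((3 * k - 1).choose (k - 1) : ℝ) = ((3 * k).choose k : ℝ) := by
    exact_mod_cast h2
  have h5 : (((3 * k - 1).choose (k - 1) : ℕ) : ℝ) ≤ (z.choose (k - 1) : ℝ) := by
    exact_mod_cast h3
  linarith

theorem n4 : S_n4 := by
  intro m k
  induction k with
  | zero => intro _; simp
  | succ k ih =>
    intro h
    have ih := ih (by omega)
    have h1 := Nat.choose_succ_right_eq m k
    have h2 := Nat.choose_succ_right_eq (m / 2) k
    have h3 : m - k ≤ 3 * (m / 2 - k) := by omega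
    refine Nat.le_of_mul_le_mul_right ?_ (Nat.succ_pos k)
    show m.choose (k + 1) * (k + 1) ≤ 3 ^ (k + 1) * (m / 2).choose (k + 1) * (k + 1)
    rw [h1]
    calc m.choose k * (m - k) ≤ (3 ^ k * (m / 2).choose k) * (3 * (m / 2 - k)) :=
          Nat.mul_le_mul ih h3
      _ = 3 ^ (k + 1) * ((m / 2).choose k * (m / 2 - k)) := by ring
      _ = _ := by rw [← h2]; ring

end Pool.Agent.H9.UI
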