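import Pool.Agent.H30.UI.Stubs

namespace Pool.Agent.H9.UI

open Finset Pool.Agent.H30.UI

theorem ratio : S_ratio := by
  intro a b j j' hab hb hj hj'
  induction j', hj using Nat.le_induction with
  | base => simp
  | succ i hi ih =>
    have ih := ih (by omega)
    have hb' : (0 : ℝ) < b := by exact_mod_cast hb
    have h1 : (a.choose (i + 1) : ℝ) * (i + 1) = a.choose i * ((a - i : ℕ) : ℝ) := by
      exact_mod_cast Nat.choose_succ_right_eq a i
    have h2 : (b.choose (i + 1) : ℝ) * (i + 1) = b.choose i * ((b - i : ℕ) : ℝ) := by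
      exact_mod_cast Nat.choose_succ_right_eq b i
    have h3 : ((b - i : ℕ) : ℝ) = (b : ℝ) - i := by
      rw [Nat.cast_sub (by omega)]
    have h4 : ((a - i : ℕ) : ℝ) ≤ ((b : ℝ) - i) * ((a : ℝ) / b) := by
      rw [mul_div_assoc', le_div_iff₀ hb']
      rcases le_or_gt i a with h | h
      · rw [Nat.cast_sub h]
        have : (a : ℝ) ≤ b := by exact_mod_cast hab
        have h0 : (0 : ℝ) ≤ i := Nat.cast_nonneg i
        nlinarith
      · rw [Nat.sub_eq_zero_of_le h.le, Nat.cast_zero, zero_mul]
        have : (i : ℝ) ≤ b := by exact_mod_cast (by omega : i ≤ b)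
        have h0 : (0 : ℝ) ≤ a := Nat.cast_nonneg a
        exact mul_nonneg (by linarith) h0
    have h5 : i + 1 - j = (i - j) + 1 := by omega
    have hpos : (0 : ℝ) < (i : ℝ) + 1 := by positivity
    refine le_of_mul_le_mul_right ?_ hpos
    calc (a.choose (i + 1) : ℝ) * b.choose j * (i + 1)
        = ((a.choose (i + 1) : ℝ) * (i + 1)) * b.choose j := by ring
      _ = (a.choose i * b.choose j) * ((a - i : ℕ) : ℝ) := by rw [h1]; ring
      _ ≤ (a.choose j * b.choose i * ((a : ℝ) / b) ^ (i - j)) * (((b : ℝ) - i) * ((a : ℝ) / b)) :=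
          mul_le_mul ih h4 (Nat.cast_nonneg _) (by positivity)
      _ = a.choose j * (b.choose i * ((b : ℝ) - i)) * (((a : ℝ) / b) ^ (i - j) * ((a : ℝ) / b)) := by
          ring
      _ = a.choose j * b.choose (i + 1) * ((a : ℝ) / b) ^ (i + 1 - j) * (i + 1) := by
          rw [h5, pow_succ, ← h3, ← h2]; ring

theorem down : S_down := by
  intro b j t hjt hb
  have hb' : (0 : ℝ) < b := by exact_mod_cast hb
  have hjt' : (j : ℝ) + t ≤ b := by exact_mod_cast hjt
  have hc0 : 0 ≤ ((b : ℝ) - j - t) / b := div_nonneg (by linarith) hb'.le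
  have key : ∀ s ≤ t, (b.choose j : ℝ) * (((b : ℝ) - j - t) / b) ^ s ≤ (b - s).choose j := by
    intro s
    induction s with
    | zero => intro _; simp
    | succ s ih =>
      intro hs
      have ih := ih (by omega)
      obtain ⟨n, hn⟩ : ∃ n, b - s = n + 1 := ⟨b - s - 1, by omega⟩
      have h1 : b - (s + 1) = n := by omega
      have h2 := Nat.choose_mul_succ_eq n j
      rw [h1]
      rw [hn] at ih
      have h3 : (n.choose j : ℝ) * (n + 1) = (n + 1).choose j * ((n : ℝ) + 1 - j) := by
        have h4 : ((n + 1 - j : ℕ) : ℝ) = (n : ℝ) + 1 - j := by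
          rw [Nat.cast_sub (by omega)]; push_cast; ring
        rw [← h4]
        exact_mod_cast h2
      have hns : (n : ℝ) + 1 = (b : ℝ) - s := by
        have : (n : ℝ) + 1 + s = b := by exact_mod_cast (by omega : n + 1 + s = b)
        linarith
      have h5 : ((b : ℝ) - j - t) / b * (n + 1) ≤ (n : ℝ) + 1 - j := by
        have h6 : (n : ℝ) + 1 ≤ b := by
          rw [hns]; linarith [(Nat.cast_nonneg s : (0 : ℝ) ≤ s)]
        calc ((b : ℝ) - j - t) / b * (n + 1) ≤ ((b : ℝ) - j - t) / b * b :=
              mul_le_mul_of_nonneg_left h6 hc0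
          _ = (b : ℝ) - j - t := by field_simp
          _ ≤ (n : ℝ) + 1 - j := by
              rw [hns]
              have : (s : ℝ) ≤ t := by exact_mod_cast (by omega : s ≤ t)
              linarith
      have hn1 : (0 : ℝ) < (n : ℝ) + 1 := by positivity
      refine le_of_mul_le_mul_right ?_ hn1
      rw [h3, pow_succ]
      calc (b.choose j : ℝ) * ((((b : ℝ) - j - t) / b) ^ s * (((b : ℝ) - j - t) / b)) * (n + 1)
          = ((b.choose j : ℝ) * (((b : ℝ) - j - t) / b) ^ s) *
              ((((b : ℝ) - j - t) / b) * (n + 1)) := by ring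
        _ ≤ ((n + 1).choose j : ℝ) * ((n : ℝ) + 1 - j) :=
            mul_le_mul ih h5 (by positivity) (by positivity)
  exact key t le_rfl

end Pool.Agent.H9.UI
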